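import Pool.Agent.H47.UG.Ch

/-!
# The Hilbert function of a hypersurface, over every field
-/

set_option autoImplicit false

open MvPolynomial Finset

namespace Pool.Agent.H77.UG

open Pool.Agent.H47.UG

/-- The forms of degree `a` and their coefficients. -/
noncomputable def formsEquiv (K : Type) [Field K] (σ : Type) [Fintype σ] [DecidableEq σ] (a : ℕ) :
    homogeneousSubmodule σ K a ≃ₗ[K] ((univ : Finset σ).finsuppAntidiag a → K) where
  toFun Q := fun s => coeff s.1 Q.1
  map_add' _ _ := by funext s; simp
  map_smul' _ _ := by funext s; simp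
  invFun f := ⟨∑ s : (univ : Finset σ).finsuppAntidiag a, monomial s.1 (f s),
    Submodule.sum_mem _ fun s _ => by
      refine isHomogeneous_monomial _ ?_
      have h := (mem_finsuppAntidiag.1 s.2).1
      rw [Finsupp.degree_eq_sum]
      exact h⟩
  left_inv Q := by
    apply Subtype.ext
    ext s
    simp only [coeff_sum, coeff_monomial]
    by_cases hs : s ∈ (univ : Finset σ).finsuppAntidiag a
    · rw [Finset.sum_eq_single ⟨s, hs⟩]
      · simp
      · intro b _ hb
        rw [if_neg]
        intro h
        exact hb (Subtype.ext h)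
      · intro h
        exact absurd (mem_univ _) h
    · rw [Finset.sum_eq_zero]
      · by_contra hc
        apply hs
        rw [mem_finsuppAntidiag]
        have h1 : s.degree = a := by
          have h2 := Q.2 (Ne.symm hc)
          rw [Finsupp.degree_eq_weight_one]
          exact h2
        refine ⟨?_, by simp⟩
        rw [← h1, Finsupp.degree_eq_sum]
      · intro b _
        rw [if_neg]
        intro h
        exact hs (h ▸ b.2)
  right_inv f := by
    funext s
    simp only [coeff_sum, coeff_monomial]
    rw [Finset.sum_eq_single s]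
    · simp
    · intro b _ hb
      rw [if_neg]
      intro h
      exact hb (Subtype.ext h)
    · intro h
      exact absurd (mem_univ _) h

/-- The number of forms of degree `a`. -/
lemma finrank_homogeneous (K : Type) [Field K] (n a : ℕ) :
    Module.finrank K (homogeneousSubmodule (Fin (n + 2)) K a) = (a + (n + 1)).choose (n + 1) := by
  rw [LinearEquiv.finrank_eq (formsEquiv K (Fin (n + 2)) a), Module.finrank_fintype_fun_eq_card,
    Fintype.card_coe, card_finsuppAntidiag_nat_eq_choose]
  rw [card_univ, Fintype.card_fin, show n + 2 + a - 1 = a + (n + 1) by omega]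
  rw [Nat.choose_symm_of_eq_add (show a + (n + 1) = a + (n + 1) from rfl)]

instance finite_forms (K : Type) [Field K] (n a : ℕ) :
    FiniteDimensional K (homogeneousSubmodule (Fin (n + 2)) K a) :=
  Module.Finite.equiv (formsEquiv K (Fin (n + 2)) a).symm

/-- Components of a product with a form. -/
theorem comp_mul_add {K σ : Type} [Field K] {g : MvPolynomial σ K} {d : ℕ} (hg : g.IsHomogeneous d)
    (a : MvPolynomial σ K) (k : ℕ) :
    homogeneousComponent (k + d) (a * g) = homogeneousComponent k a * g := by
  classical
  conv_lhs => rw [← sum_homogeneousComponent a]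
  rw [Finset.sum_mul, map_sum]
  have h1 : ∀ i ∈ Finset.range (a.totalDegree + 1),
      homogeneousComponent (k + d) (homogeneousComponent i a * g)
        = if i = k then homogeneousComponent k a * g else 0 := by
    intro i _
    have h2 : homogeneousComponent i a * g ∈ homogeneousSubmodule σ K (i + d) :=
      (homogeneousComponent_isHomogeneous i a).mul hg
    rw [homogeneousComponent_of_mem h2]
    by_cases h : i = k
    · subst h; simp
    · rw [if_neg h, if_neg (by omega)]
  rw [Finset.sum_congr rfl h1, Finset.sum_ite_eq']
  split_ifs with h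
  · rfl
  · have : a.totalDegree < k := by
      simp only [Finset.mem_range] at h; omega
    rw [homogeneousComponent_eq_zero _ _ this, zero_mul]

/-- A factor of a form is a form. -/
theorem isHomogeneous_of_mul {K σ : Type} [Field K] {g w : MvPolynomial σ K} {d s : ℕ} (hg : g.IsHomogeneous d)
    (hg0 : g ≠ 0) (hd : d ≤ s) (h : (g * w).IsHomogeneous s) : w.IsHomogeneous (s - d) := by
  classical
  have hcomp : ∀ k, k ≠ s - d → homogeneousComponent k w = 0 := by
    intro k hk
    have h1 := comp_mul_add hg w k
    rw [mul_comm w g, homogeneousComponent_of_mem (show g * w ∈ homogeneousSubmodule σ K s from h),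
      if_neg (by omega)] at h1
    exact (mul_eq_zero.1 h1.symm).resolve_right hg0
  rw [← sum_homogeneousComponent w]
  refine (homogeneousSubmodule σ K (s - d)).sum_mem fun k _ => ?_
  by_cases hk : k = s - d
  · subst hk
    exact homogeneousComponent_isHomogeneous _ _
  · rw [hcomp k hk]
    exact Submodule.zero_mem _

lemma mem_mult {K : Type} [Field K] {N : ℕ} (G : MvPolynomial (Fin N) K) (s : ℕ)
    (v : homogeneousSubmodule (Fin N) K s) : v ∈ mult G s ↔ G ∣ v.1 := by
  change v.1 ∈ Ideal.span {G} ↔ _
  rw [Ideal.mem_span_singleton]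

/-- Multiplication by `G`. -/
noncomputable def mulMap {K : Type} [Field K] {N d : ℕ} (s : ℕ) (G : MvPolynomial (Fin (N + 2)) K)
    (hd : G.IsHomogeneous d) (hs : d ≤ s) :
    homogeneousSubmodule (Fin (N + 2)) K (s - d) →ₗ[K] mult G s where
  toFun Q := ⟨⟨G * Q.1, by
      have := hd.mul (show Q.1.IsHomogeneous (s - d) from Q.2)
      rwa [Nat.add_sub_cancel' hs] at this⟩, (mem_mult G s _).2 (dvd_mul_right _ _)⟩
  map_add' _ _ := by
    apply Subtype.ext; apply Subtype.ext
    exact mul_add _ _ _
  map_smul' _ _ := by
    apply Subtype.ext; apply Subtype.ext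
    exact mul_smul_comm _ _ _

lemma finrank_mult {K : Type} [Field K] {N d : ℕ} (s : ℕ) (G : MvPolynomial (Fin (N + 2)) K) (hG : G ≠ 0)
    (hd : G.IsHomogeneous d) :
    Module.finrank K (mult G s) = (s + N + 1 - d).choose (N + 1) := by
  rcases lt_or_ge s d with hs | hs
  · have h0 : mult G s = ⊥ := by
      rw [eq_bot_iff]
      intro v hv
      rw [mem_mult] at hv
      obtain ⟨w, hw⟩ := hv
      rw [Submodule.mem_bot]
      apply Subtype.ext
      by_contra hne
      change v.1 ≠ 0 at hne
      have hw0 : w ≠ 0 := by
        rintro rfl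
        rw [mul_zero] at hw
        exact hne hw
      have h1 : v.1.IsHomogeneous s := v.2
      have h2 := h1.totalDegree hne
      have h3 := totalDegree_mul_of_isDomain hG hw0
      rw [← hw, h2, hd.totalDegree hG] at h3
      omega
    rw [h0, finrank_bot, Nat.choose_eq_zero_of_lt (by omega)]
  · have h1 : Function.Bijective (mulMap s G hd hs) := by
      constructor
      · intro Q R h
        have h2 : G * Q.1 = G * R.1 := congrArg (fun x => x.1.1) h
        exact Subtype.ext (mul_left_cancel₀ hG h2)
      · rintro ⟨v, hv⟩
        have hv' := hv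
        rw [mem_mult] at hv'
        obtain ⟨w, hw⟩ := hv'
        have hvh : v.1.IsHomogeneous s := v.2
        by_cases hv0 : v.1 = 0
        · refine ⟨0, ?_⟩
          apply Subtype.ext; apply Subtype.ext
          change G * 0 = v.1
          rw [mul_zero, hv0]
        · have hwh : w.IsHomogeneous (s - d) := by
            have h3 : (G * w).IsHomogeneous s := by rw [← hw]; exact hvh
            exact isHomogeneous_of_mul hd hG hs h3
          refine ⟨⟨w, hwh⟩, ?_⟩
          apply Subtype.ext; apply Subtype.ext
          exact hw.symm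
    rw [← (LinearEquiv.ofBijective _ h1).finrank_eq, finrank_homogeneous]
    congr 1
    omega

/-- HILB -/
theorem finrank_quot {K : Type} [Field K] {N d : ℕ} (s : ℕ) (G : MvPolynomial (Fin (N + 2)) K) (hG : G ≠ 0)
    (hd : G.IsHomogeneous d) (_h1 : 1 ≤ d) :
    Module.finrank K (homogeneousSubmodule (Fin (N + 2)) K s ⧸ mult G s) = hyp N d s := by
  have h1 := Submodule.finrank_quotient_add_finrank (mult G s)
  rw [finrank_mult s G hG hd, finrank_homogeneous] at h1
  unfold hyp
  have h2 : s + (N + 1) = s + N + 1 := by omega
  rw [h2] at h1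
  omega

end Pool.Agent.H77.UG

namespace Pool.Agent.H47.UG

/-- HILB -/
theorem finrank_quot {K : Type} [Field K] {N d : ℕ} (s : ℕ) (G : MvPolynomial (Fin (N + 2)) K) (hG : G ≠ 0)
    (hd : G.IsHomogeneous d) (h1 : 1 ≤ d) :
    Module.finrank K (homogeneousSubmodule (Fin (N + 2)) K s ⧸ mult G s) = hyp N d s :=
  Pool.Agent.H77.UG.finrank_quot s G hG hd h1

end Pool.Agent.H47.UG
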