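import Pool.Agent.H77.UG.Retr
import Pool.Agent.H33.UG.A1
import Pool.Agent.H25.UG.SigF
import Pool.Agent.H94.UG.Psi

/-!
# The left inverse of `ψ`, final form
-/

set_option autoImplicit false

open MvPolynomial

namespace Pool.Agent.H47.UG.FF

variable {K : Type} [Field K] [CharZero K] {n d : ℕ} {F : HP K n} (T : FF d F) (hF : Nice d F)

include hF

/-- RETR: a left inverse of ψ on the chart (i,j) -/
theorem retract (hd : 2 ≤ d) (i : Fin (n + 2)) (j : Fin (n + 1)) :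
    ∃ r : T.ZZ →ₐ[T.L] T.BB, (∀ v, r (T.ψ v) = v) ∧ ∃ (a : Fin n → T.L) (τ : Fin n → Fin (n + 2) × Fin (n + 2)),
      Function.Injective τ ∧ (∀ l, a l ∈ T.locA (2 - (d : ℤ)) i (i.succAbove j)) ∧
      (∀ s l, r (X (s, τ l)) = C (a l) * T.δ s (T.y i j l)) ∧ ∀ s pq, pq ∉ Set.range τ → r (X (s, pq)) = 0 :=
  T.retract_aux (T.Ko_x hF) (T.fd_ne hF hd) hd i j
    (T.σ_bij hF hd i j).2

end Pool.Agent.H47.UG.FF
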