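import Pool.Agent.H47.UG.Ch

/-!
# A left inverse of the Koszul embedding `ψ` on every chart
-/

set_option autoImplicit false

open MvPolynomial

namespace Pool.Agent.H47.UG.FF

variable {K : Type} [Field K] [CharZero K] {n d : ℕ} {F : HP K n} (T : FF d F)

/-- the index of the coordinate `y i j l` -/
def idx (i : Fin (n + 2)) (j : Fin (n + 1)) (l : Fin n) : Fin (n + 2) := i.succAbove (j.succAbove l)

omit [CharZero K] in
theorem Ko_y (hKo : ∀ pq l, T.Ko pq (T.x l) = T.Dt pq l) (pq : Fin (n + 2) × Fin (n + 2)) (i m : Fin (n + 2)) :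
    T.Ko pq (T.x m / T.x i) =
      (T.fd pq.1 * (if pq.2 = m then 1 else 0) - T.fd pq.2 * (if pq.1 = m then 1 else 0)) / T.x i -
        T.x m * (T.fd pq.1 * (if pq.2 = i then 1 else 0) - T.fd pq.2 * (if pq.1 = i then 1 else 0)) /
          T.x i ^ 2 := by
  have hi := T.x_ne i
  have h1 : T.Ko pq (T.x m / T.x i) = (T.x i ^ 2)⁻¹ * (T.x i * T.Dt pq m - T.x m * T.Dt pq i) := by
    have h2 : T.Ko pq (T.x m) = T.Ko pq (T.x i * (T.x m / T.x i)) := by
      rw [mul_div_cancel₀ _ hi]
    rw [Derivation.leibniz, hKo, hKo] at h2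
    simp only [smul_eq_mul] at h2
    have h3 : T.x i * T.Ko pq (T.x m / T.x i) = T.Dt pq m - T.x m / T.x i * T.Dt pq i := by
      rw [h2]; ring
    field_simp at h3 ⊢
    linear_combination h3
  rw [h1]
  unfold Dt
  field_simp
  ring

theorem retract_aux (hKo : ∀ pq l, T.Ko pq (T.x l) = T.Dt pq l) (hfd : ∀ j, T.fd j ≠ 0) (hd : 2 ≤ d)
    (i : Fin (n + 2)) (j : Fin (n + 1)) (hσ : Function.Surjective (T.σ i j)) :
    ∃ r : T.ZZ →ₐ[T.L] T.BB, (∀ v, r (T.ψ v) = v) ∧ ∃ (a : Fin n → T.L) (τ : Fin n → Fin (n + 2) × Fin (n + 2)),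
      Function.Injective τ ∧ (∀ l, a l ∈ T.locA (2 - (d : ℤ)) i (i.succAbove j)) ∧
      (∀ s l, r (X (s, τ l)) = C (a l) * T.δ s (T.y i j l)) ∧ ∀ s pq, pq ∉ Set.range τ → r (X (s, pq)) = 0 := by
  classical
  let j' := i.succAbove j
  let τ : Fin n → Fin (n + 2) × Fin (n + 2) := fun l => (j', idx i j l)
  have hτ : Function.Injective τ := by
    intro l l' h
    have h1 : idx i j l = idx i j l' := congrArg Prod.snd h
    exact Fin.succAbove_right_injective (Fin.succAbove_right_injective h1)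
  let a : T.L := T.x i / T.fd j'
  let r : T.ZZ →ₐ[T.L] T.BB := aeval fun p : ℕ × (Fin (n + 2) × Fin (n + 2)) =>
    if h : p.2 ∈ Set.range τ then C a * T.δ p.1 (T.y i j h.choose) else 0
  have hr1 : ∀ s l, r (X (s, τ l)) = C a * T.δ s (T.y i j l) := by
    intro s l
    change aeval _ (X (s, τ l)) = _
    rw [aeval_X]
    have h : τ l ∈ Set.range τ := ⟨l, rfl⟩
    simp only []
    rw [dif_pos h]
    have h2 : h.choose = l := hτ h.choose_spec
    rw [h2]
  have hr2 : ∀ s pq, pq ∉ Set.range τ → r (X (s, pq)) = 0 := by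
    intro s pq h
    change aeval _ (X (s, pq)) = _
    rw [aeval_X]
    simp only []
    rw [dif_neg h]
  have hψ : ∀ (s : ℕ) (v : T.L), T.ψ (T.δ s v) = ∑ pq, C (T.Ko pq v) * X (s, pq) := by
    intro s v
    unfold δ ψ Ko
    rw [map_sum]
    have h1 : ∀ l : Fin n, (aeval fun p : ℕ × Fin n => ∑ pq, C (T.Dt pq p.2.succ.castSucc) * X (p.1, pq))
        (C (T.par l v) * X (s, l) : T.BB) = ∑ pq, C (T.par l v) * (C (T.Dt pq l.succ.castSucc) * X (s, pq)) := by
      intro l
      rw [map_mul, aeval_X, Finset.mul_sum]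
      refine Finset.sum_congr rfl fun pq _ => ?_
      congr 1
      exact aeval_C _ _
    rw [Finset.sum_congr rfl fun l _ => h1 l, Finset.sum_comm]
    refine Finset.sum_congr rfl fun pq _ => ?_
    rw [sum_der, map_sum, Finset.sum_mul]
    refine Finset.sum_congr rfl fun l _ => ?_
    rw [Derivation.smul_apply, smul_eq_mul, map_mul]
    ring
  have hKoy : ∀ l l', T.Ko (τ l) (T.y i j l') = if l = l' then T.fd j' / T.x i else 0 := by
    intro l l'
    have h1 := T.Ko_y hKo (τ l) i (idx i j l')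
    have hji : j' ≠ i := Fin.succAbove_ne i j
    have hli : idx i j l ≠ i := Fin.succAbove_ne i _
    have hjl' : j' ≠ idx i j l' := fun h => Fin.succAbove_ne j l' (Fin.succAbove_right_injective h).symm
    have hll : (idx i j l = idx i j l') ↔ l = l' :=
      ⟨fun h => Fin.succAbove_right_injective (Fin.succAbove_right_injective h), fun h => by rw [h]⟩
    change T.Ko (τ l) (T.x (idx i j l') / T.x i) = _
    rw [h1]
    change (T.fd j' * (if idx i j l = idx i j l' then 1 else 0) - T.fd (idx i j l) * (if j' = idx i j l' then 1 else 0)) /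
      T.x i - T.x (idx i j l') * (T.fd j' * (if idx i j l = i then 1 else 0) - T.fd (idx i j l) *
        (if j' = i then 1 else 0)) / T.x i ^ 2 = _
    rw [if_neg hji, if_neg hli, if_neg hjl']
    by_cases h : l = l'
    · rw [if_pos (hll.2 h), if_pos h]; ring
    · rw [if_neg (fun h' => h (hll.1 h')), if_neg h]; ring
  have hr3 : ∀ s l, r (T.ψ (T.δ s (T.y i j l))) = T.δ s (T.y i j l) := by
    intro s l
    rw [hψ, map_sum]
    have h1 : ∀ pq ∈ (Finset.univ : Finset (Fin (n + 2) × Fin (n + 2))), pq ∉ (Finset.univ.image τ) →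
        r (C (T.Ko pq (T.y i j l)) * X (s, pq)) = 0 := by
      intro pq _ hpq
      rw [map_mul, hr2 s pq (by
        rintro ⟨l', hl'⟩
        exact hpq (Finset.mem_image.2 ⟨l', Finset.mem_univ _, hl'⟩)), mul_zero]
    rw [← Finset.sum_subset (Finset.subset_univ (Finset.univ.image τ)) h1, Finset.sum_image fun x _ y _ h => hτ h]
    have h2 : ∀ l', r (C (T.Ko (τ l') (T.y i j l)) * X (s, τ l')) =
        if l' = l then T.δ s (T.y i j l) else 0 := by
      intro l'
      rw [map_mul, hr1, hKoy]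
      have hC : ∀ c : T.L, r (C c) = C c := fun c => aeval_C _ _
      rw [hC]
      by_cases h : l' = l
      · rw [if_pos h, if_pos h, ← mul_assoc, ← C_mul, h]
        have h3 : T.fd j' / T.x i * a = 1 := by
          have := hfd j'
          have := T.x_ne i
          change T.fd j' / T.x i * (T.x i / T.fd j') = 1
          field_simp
        rw [h3, C_1, one_mul]
      · rw [if_neg h, if_neg h, C_0, zero_mul]
    rw [Finset.sum_congr rfl fun l' _ => h2 l', Finset.sum_ite_eq' Finset.univ l]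
    simp
  refine ⟨r, ?_, fun _ => a, τ, hτ, fun l => ?_, hr1, hr2⟩
  · intro v
    obtain ⟨w, rfl⟩ := hσ v
    have h1 : (r.comp (T.ψ.comp (T.σ i j))) = T.σ i j := by
      apply MvPolynomial.algHom_ext
      intro p
      change r (T.ψ (T.σ i j (X p))) = T.σ i j (X p)
      have h2 : T.σ i j (X p) = T.δ p.1 (T.y i j p.2) := aeval_X _ _
      rw [h2]
      exact hr3 p.1 p.2
    exact DFunLike.congr_fun h1 w
  · refine ⟨1, Submodule.subset_span ⟨1, (T.A i).one_mem, ?_⟩⟩
    change T.u i j' ^ 1 * (T.x i / T.fd j') = T.x i ^ (2 - (d : ℤ)) * 1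
    have h1 := hfd j'
    have h2 := T.x_ne i
    unfold u
    obtain ⟨e, rfl⟩ : ∃ e, d = e + 2 := ⟨d - 2, by omega⟩
    have h3 : e + 2 - 1 = e + 1 := by omega
    rw [h3, pow_one, mul_one]
    have h4 : (2 : ℤ) - ((e + 2 : ℕ) : ℤ) = -(e : ℤ) := by push_cast; ring
    rw [h4, zpow_neg, zpow_natCast, pow_succ]
    field_simp

end Pool.Agent.H47.UG.FF
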